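import Pool.Agent.Y924.UF.Stm3

set_option autoImplicit false

/-! Project UF: the main induction on the formulas of arithmetic. -/

namespace Pool.Agent.Y657.UF

open Function
open Pool.Agent.Y924.EL Pool.Agent.Y924.UF

/-- the defined set depends only on the variables below `V`, and not on the variable 0 -/
theorem defP_congr {p : ℕ} [Fact p.Prime] (P : Set (LaurentSeries (ZMod p))) {φ : Fm} {V : ℕ}
    (hB : Below V φ) (a b : ℕ → LaurentSeries (ZMod p))
    (h : ∀ l, l < V → l ≠ 0 → a l = b l) : DefP P φ a = DefP P φ b := by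
  ext x
  refine sat_agree P φ hB _ _ fun l hl => ?_
  by_cases h0 : l = 0
  · subst h0
    simp
  · rw [update_of_ne h0, update_of_ne h0, h l hl h0]

theorem sgB_of_ne (V i l : ℕ) (hl : l ≠ 0) : sgB V i l = 100 + V * i + l := by
  simp [sgB, hl]

/-- outside of block `i` nothing changes -/
theorem block_ne {V i j l : ℕ} (hij : j ≠ i) (hl : l < V) :
    100 + V * j + l < 100 + V * i ∨ 100 + V * i + V ≤ 100 + V * j + l := by
  rcases Nat.lt_or_gt_of_ne hij with h | h
  · left
    have h1 : V * (j + 1) ≤ V * i := Nat.mul_le_mul_left V h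
    rw [Nat.mul_succ] at h1
    omega
  · right
    have h1 : V * (i + 1) ≤ V * j := Nat.mul_le_mul_left V h
    rw [Nat.mul_succ] at h1
    omega

theorem t_IND : S_BAS → S_EXR → S_IND := by
  intro hBAS hEXR p _ P φ V hB hFull ψ
  have hb := fun (i j k : ℕ) (v : ℕ → LaurentSeries (ZMod p)) =>
    hBAS p P φ V i j k v (fun i => DefP P φ (v ∘ sgB V i)) (fun _ => rfl)
  induction ψ with
  | eq i j =>
    intro v n h
    have hi := h i (by simp [Fm.fv])
    have hj := h j (by simp [Fm.fv])
    have h1 := (hb i j i v).2.2.1 hi.1 hj.1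
    rw [hi.2, hj.2] at h1
    exact h1
  | one i =>
    intro v n h
    have hi := h i (by simp [Fm.fv])
    have h1 := (hb i i i v).2.1 hi.1
    rw [hi.2] at h1
    exact h1
  | add i j k =>
    intro v n h
    have hi := h i (by simp [Fm.fv])
    have hj := h j (by simp [Fm.fv])
    have hk := h k (by simp [Fm.fv])
    have h1 := ((hb i j k v).2.2.2 hi.1 hj.1 hk.1).1
    rw [hi.2, hj.2, hk.2] at h1
    exact h1
  | mul i j k =>
    intro v n h
    have hi := h i (by simp [Fm.fv])
    have hj := h j (by simp [Fm.fv])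
    have hk := h k (by simp [Fm.fv])
    have h1 := ((hb i j k v).2.2.2 hi.1 hj.1 hk.1).2
    rw [hi.2, hj.2, hk.2] at h1
    exact h1
  | val i =>
    intro v n _
    constructor
    · rintro ⟨a, ha⟩
      exact absurd rfl ha
    · intro h1
      exact absurd h1 (Set.notMem_empty _)
  | neg ψ ih =>
    intro v n h
    exact not_congr (ih v n h)
  | and ψ χ ih1 ih2 =>
    intro v n h
    exact and_congr (ih1 v n fun i hi => h i (Finset.mem_union_left _ hi))
      (ih2 v n fun i hi => h i (Finset.mem_union_right _ hi))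
  | ex i ψ ih =>
    intro v n h
    have key : ∀ w : ℕ → LaurentSeries (ZMod p),
        (∀ j, (j < 100 + V * i ∨ 100 + V * i + V ≤ j) → w j = v j) →
        ∀ j, j ≠ i → DefP P φ (w ∘ sgB V j) = DefP P φ (v ∘ sgB V j) := by
      intro w hw j hj
      refine defP_congr P hB _ _ fun l hl h0 => ?_
      show w (sgB V j l) = v (sgB V j l)
      rw [sgB_of_ne V j l h0]
      exact hw _ (block_ne hj hl)
    have hfv : ∀ j, j ∈ ψ.fv → j ≠ i → j ∈ (Fm.ex i ψ).fv := fun j hj hne =>
      Finset.mem_erase.2 ⟨hne, hj⟩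
    show Sat P (exR (100 + V * i) V (.and (bas (TFin p) V φ i i i) (trF p V φ ψ))) v ↔
      ∃ m : ℕ, Sat (∅ : Set ℕ) ψ (update n i m)
    rw [hEXR]
    constructor
    · rintro ⟨w, hw, hw1, hw2⟩
      have hfin := (hb i i i w).1.1 hw1
      refine ⟨(DefP P φ (w ∘ sgB V i)).ncard, (ih w _ ?_).1 hw2⟩
      intro j hj
      by_cases hji : j = i
      · subst hji
        exact ⟨hfin, by simp⟩
      · rw [key w hw j hji, update_of_ne hji]
        exact h j (hfv j hj hji)
    · rintro ⟨m, hm⟩
      obtain ⟨v', hv1, hv2⟩ := hFull m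
      classical
      let w : ℕ → LaurentSeries (ZMod p) := fun j =>
        if 100 + V * i ≤ j ∧ j < 100 + V * i + V then v' (j - (100 + V * i)) else v j
      have hw : ∀ j, (j < 100 + V * i ∨ 100 + V * i + V ≤ j) → w j = v j := by
        intro j hj
        exact if_neg (by omega)
      have hD : DefP P φ (w ∘ sgB V i) = DefP P φ v' := by
        refine defP_congr P hB _ _ fun l hl h0 => ?_
        show w (sgB V i l) = v' l
        rw [sgB_of_ne V i l h0]
        have h1 : w (100 + V * i + l) = v' (100 + V * i + l - (100 + V * i)) :=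
          if_pos ⟨by omega, by omega⟩
        rw [h1]
        congr 1
        omega
      refine ⟨w, hw, (hb i i i w).1.2 (by show (DefP P φ (w ∘ sgB V i)).Finite; rw [hD]; exact hv1),
        (ih w _ ?_).2 hm⟩
      intro j hj
      by_cases hji : j = i
      · subst hji
        rw [hD]
        exact ⟨hv1, by rw [hv2]; simp⟩
      · rw [key w hw j hji, update_of_ne hji]
        exact h j (hfv j hj hji)

end Pool.Agent.Y657.UF
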